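import Pool.Agent.Helper26.Er.Defs
import Pool.Agent.Helper26.Ip.Tools
import Pool.Agent.Helper83.Ip.ETA
import Pool.Agent.Helper41.Ip.CH
import Pool.Agent.Helper12.Lr.LR4

/-!
# Package E6: isotropy from the linear derivative
-/

set_option autoImplicit false
set_option linter.unusedSectionVars false
open MeasureTheory Filter Topology ProbabilityTheory
open scoped ContDiff ENNReal InnerProductSpace

namespace Pool.Agent.Helper72.Er

open Pool.Agent.N661.BR (MW IsStationary)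
open Pool.Agent.Helper37.BC
open Pool.Agent.Helper26.Ip
open Pool.Agent.Helper26.Lr
open Pool.Agent.Helper26.Er
open Pool.Agent.Helper83.Ip (phi phi_small phi_le)
open Complex (I)

noncomputable section

section general

variable {Ω : Type*} [MeasurableSpace Ω] {μ : Measure Ω} [IsProbabilityMeasure μ]

theorem phi_sq (u : ℝ) : ‖phi u‖ ≤ 2 * u ^ 2 := by
  rcases le_or_gt |u| 1 with h | h
  · refine (phi_small h).trans ?_
    rw [sq_abs]
    nlinarith [sq_nonneg u]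
  · refine (phi_le u).trans ?_
    rw [← sq_abs u]
    nlinarith

theorem int_sq (v : Lp ℝ 2 μ) : ∫ f, v f ^ 2 ∂μ = ‖v‖ ^ 2 := by
  rw [← real_inner_self_eq_norm_sq, L2.inner_def]
  refine integral_congr_ae (Eventually.of_forall fun f => ?_)
  show v f ^ 2 = v f * v f
  ring

theorem sq_int (v : Lp ℝ 2 μ) : Integrable (fun f => v f ^ 2) μ := (Lp.memLp v).integrable_sq

theorem ch_diff (c v : Lp ℝ 2 μ) : ‖ch (c + v) - ch c - I * D c v‖ ≤ 2 * ‖v‖ ^ 2 := by
  have h1 : ch (c + v) - ch c - I * D c v =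
      ∫ f, Complex.exp (I * ((c f : ℝ) : ℂ)) * phi (v f) ∂μ := by
    have e1 : ch (c + v) = ∫ f, Complex.exp (I * ((c f : ℝ) : ℂ)) *
        Complex.exp (I * ((v f : ℝ) : ℂ)) ∂μ := by
      unfold ch
      refine integral_congr_ae ?_
      filter_upwards [Lp.coeFn_add c v] with f hf
      rw [hf, Pi.add_apply, ← Complex.exp_add]
      congr 1
      push_cast
      ring
    have i1 : Integrable (fun f => Complex.exp (I * ((c f : ℝ) : ℂ)) *
        Complex.exp (I * ((v f : ℝ) : ℂ))) μ := by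
      have := Pool.Agent.Helper41.Ip.int_exp (c + v)
      refine this.congr ?_
      filter_upwards [Lp.coeFn_add c v] with f hf
      rw [hf, Pi.add_apply, ← Complex.exp_add]
      congr 1
      push_cast
      ring
    have i2 := Pool.Agent.Helper41.Ip.int_exp (μ := μ) c
    have i3 := (Pool.Agent.Helper41.Ip.int_kexp (μ := μ) v c).const_mul I
    have i4 : Integrable (fun f => Complex.exp (I * ((c f : ℝ) : ℂ)) *
        Complex.exp (I * ((v f : ℝ) : ℂ)) - Complex.exp (I * ((c f : ℝ) : ℂ))) μ := i1.sub i2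
    rw [e1]
    unfold ch D
    rw [← integral_sub i1 i2, ← integral_const_mul, ← integral_sub i4 i3]
    refine integral_congr_ae (Eventually.of_forall fun f => ?_)
    show Complex.exp (I * ((c f : ℝ) : ℂ)) * Complex.exp (I * ((v f : ℝ) : ℂ)) -
      Complex.exp (I * ((c f : ℝ) : ℂ)) - I * ((v f : ℂ) * Complex.exp (I * ((c f : ℝ) : ℂ))) =
      Complex.exp (I * ((c f : ℝ) : ℂ)) * phi (v f)
    unfold phi
    ring
  rw [h1]
  have h2 : 2 * ‖v‖ ^ 2 = ∫ f, 2 * v f ^ 2 ∂μ := by rw [integral_const_mul, int_sq]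
  rw [h2]
  refine norm_integral_le_of_norm_le ((sq_int v).const_mul 2) (Eventually.of_forall fun f => ?_)
  rw [norm_mul, Pool.Agent.Helper41.Ip.norm_exp_one, one_mul]
  exact phi_sq _

theorem D_norm (c k : Lp ℝ 2 μ) : ‖D c k‖ ≤ ‖k‖ := by
  refine le_trans ?_ (Pool.Agent.Helper41.Ip.int_abs_le k)
  unfold D
  refine norm_integral_le_of_norm_le (Pool.Agent.Helper41.Ip.int_one k).abs
    (Eventually.of_forall fun f => ?_)
  rw [norm_mul, Pool.Agent.Helper41.Ip.norm_exp_one, mul_one, Complex.norm_real,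
    Real.norm_eq_abs]

/-- the quadratic estimate on spheres -/
theorem quad {c v : Lp ℝ 2 μ} (hc0 : c ≠ 0) {l : ℂ} (h1 : D c c = l * (⟪c, c⟫_ℝ : ℝ))
    (h2 : D c v = l * (⟪c, v⟫_ℝ : ℝ)) (hn : ‖c + v‖ = ‖c‖) :
    ‖ch (c + v) - ch c‖ ≤ (2 + 1 / ‖c‖) * ‖v‖ ^ 2 := by
  have hr : 0 < ‖c‖ := norm_pos_iff.2 hc0
  have hl : ‖l‖ * ‖c‖ ≤ 1 := by
    have h3 := D_norm c c
    rw [h1, norm_mul, Complex.norm_real, real_inner_self_eq_norm_sq, Real.norm_eq_abs,
      abs_of_nonneg (sq_nonneg _)] at h3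
    have h4 : ‖l‖ * ‖c‖ * ‖c‖ ≤ 1 * ‖c‖ := by nlinarith
    exact le_of_mul_le_mul_right h4 hr
  have hin : ⟪c, v⟫_ℝ = -(‖v‖ ^ 2 / 2) := by
    have h3 := norm_add_sq_real c v
    rw [hn] at h3
    linarith
  have h4 : ‖D c v‖ ≤ 1 / ‖c‖ * ‖v‖ ^ 2 := by
    rw [h2, hin, norm_mul, Complex.norm_real, Real.norm_eq_abs, abs_neg,
      abs_of_nonneg (by positivity)]
    have h5 : ‖l‖ ≤ 1 / ‖c‖ := by rwa [le_div_iff₀ hr]
    have h6 : 0 ≤ ‖v‖ ^ 2 := sq_nonneg _
    have h7 : 0 ≤ 1 / ‖c‖ := by positivity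
    calc ‖l‖ * (‖v‖ ^ 2 / 2) ≤ 1 / ‖c‖ * (‖v‖ ^ 2 / 2) :=
          mul_le_mul_of_nonneg_right h5 (by positivity)
      _ ≤ 1 / ‖c‖ * ‖v‖ ^ 2 := mul_le_mul_of_nonneg_left (by linarith) h7
  have h5 : ch (c + v) - ch c = (ch (c + v) - ch c - I * D c v) + I * D c v := by ring
  rw [h5]
  refine (norm_add_le _ _).trans ?_
  rw [norm_mul, Complex.norm_I, one_mul, add_mul]
  exact add_le_add (ch_diff c v) h4

theorem const_of_sq {F : ℝ → ℂ} {K : ℝ} (h : ∀ x y, ‖F y - F x‖ ≤ K * (y - x) ^ 2) (x y : ℝ) :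
    F x = F y := by
  have hd : ∀ x, HasDerivAt F 0 x := by
    intro x
    rw [hasDerivAt_iff_isLittleO_nhds_zero]
    simp only [smul_zero, sub_zero]
    have h1 : (fun t : ℝ => F (x + t) - F x) =O[𝓝 0] fun t : ℝ => t ^ 2 := by
      refine Asymptotics.IsBigO.of_bound K (Eventually.of_forall fun t => ?_)
      have h2 := h x (x + t)
      rw [add_sub_cancel_left] at h2
      rwa [Real.norm_eq_abs, abs_of_nonneg (sq_nonneg t)]
    exact h1.trans_isLittleO (Asymptotics.isLittleO_pow_id (by norm_num))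
  exact is_const_of_deriv_eq_zero (fun x => (hd x).differentiableAt) (fun x => (hd x).deriv) x y

end general

variable {μ : Measure MW} [IsProbabilityMeasure μ]

theorem norm_comb {a b : Lp ℝ 2 μ} (hab : ⟪a, b⟫_ℝ = 0) {r : ℝ} (ha : ‖a‖ = r) (hb : ‖b‖ = r)
    (s t : ℝ) : ‖s • a + t • b‖ ^ 2 = r ^ 2 * (s ^ 2 + t ^ 2) := by
  rw [norm_add_sq_real, real_inner_smul_left, real_inner_smul_right, hab, norm_smul, norm_smul,
    ha, hb, mul_pow, mul_pow, Real.norm_eq_abs, Real.norm_eq_abs, sq_abs, sq_abs]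
  ring

/-- `ch` is constant on circles -/
theorem circle (h : ∀ c ∈ values μ, ∃ l : ℂ, ∀ k ∈ values μ, D c k = l * (⟪c, k⟫_ℝ : ℝ))
    {a b : Lp ℝ 2 μ} (ha : a ∈ values μ) (hb : b ∈ values μ) (hab : ⟪a, b⟫_ℝ = 0) {r : ℝ}
    (hr : 0 < r) (har : ‖a‖ = r) (hbr : ‖b‖ = r) (x y : ℝ) :
    ch (Real.cos x • a + Real.sin x • b) = ch (Real.cos y • a + Real.sin y • b) := by
  refine const_of_sq (F := fun x => ch (Real.cos x • a + Real.sin x • b))
    (K := (2 + 1 / r) * (r ^ 2 * 2)) (fun x y => ?_) x y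
  have hm : ∀ s t : ℝ, s • a + t • b ∈ values μ := fun s t =>
    Submodule.add_mem _ (Submodule.smul_mem _ s ha) (Submodule.smul_mem _ t hb)
  have hn : ∀ x : ℝ, ‖Real.cos x • a + Real.sin x • b‖ = r := by
    intro x
    have h1 := norm_comb hab har hbr (Real.cos x) (Real.sin x)
    rw [Real.cos_sq_add_sin_sq, mul_one] at h1
    exact (sq_eq_sq₀ (norm_nonneg _) hr.le).1 h1
  obtain ⟨l, hl⟩ := h _ (hm (Real.cos x) (Real.sin x))
  obtain ⟨v, hv⟩ : ∃ v, v = (Real.cos y - Real.cos x) • a + (Real.sin y - Real.sin x) • b :=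
    ⟨_, rfl⟩
  have hxv : Real.cos x • a + Real.sin x • b + v = Real.cos y • a + Real.sin y • b := by
    rw [hv, sub_smul, sub_smul]
    abel
  have hvm : v ∈ values μ := by rw [hv]; exact hm _ _
  have hne : Real.cos x • a + Real.sin x • b ≠ 0 := by
    rw [← norm_pos_iff, hn]
    exact hr
  have h1 := quad hne (hl _ (hm _ _)) (hl v hvm) (by rw [hxv, hn, hn])
  rw [hxv, hn] at h1
  refine h1.trans ?_
  have h2 : ‖v‖ ^ 2 ≤ r ^ 2 * 2 * (y - x) ^ 2 := by
    rw [hv, norm_comb hab har hbr]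
    have hc : (Real.cos y - Real.cos x) ^ 2 ≤ (y - x) ^ 2 := by
      rw [sq_le_sq]
      have := Real.lipschitzWith_cos.dist_le_mul y x
      rwa [Real.dist_eq, Real.dist_eq, NNReal.coe_one, one_mul] at this
    have hs : (Real.sin y - Real.sin x) ^ 2 ≤ (y - x) ^ 2 := by
      rw [sq_le_sq]
      have := Real.lipschitzWith_sin.dist_le_mul y x
      rwa [Real.dist_eq, Real.dist_eq, NNReal.coe_one, one_mul] at this
    nlinarith [sq_nonneg r]
  have h3 : 0 ≤ 2 + 1 / r := by positivity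
  calc (2 + 1 / r) * ‖v‖ ^ 2 ≤ (2 + 1 / r) * (r ^ 2 * 2 * (y - x) ^ 2) :=
        mul_le_mul_of_nonneg_left h2 h3
    _ = _ := by ring

theorem V_eq (hs : IsStationary μ) (h2 : Integrable (fun f : MW => f 0 ^ 2) μ) (x : ℂ) :
    ‖V hs h2 x‖ = ‖V hs h2 0‖ := by
  have h1 := S_V hs h2 x 0
  rw [zero_add] at h1
  rw [← h1, (S hs x).norm_map]

theorem V_ne (hs : IsStationary μ) (h2 : Integrable (fun f : MW => f 0 ^ 2) μ)
    {c : Lp ℝ 2 μ} (hc : c ∈ values μ) (hc0 : c ≠ 0) (x : ℂ) : V hs h2 x ≠ 0 := by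
  intro hx
  apply hc0
  have h0 : ‖V hs h2 0‖ = 0 := by rw [← V_eq hs h2 x, hx, norm_zero]
  have hy : ∀ y, V hs h2 y = 0 := by
    intro y
    rw [← norm_eq_zero, V_eq, h0]
  refine values_induction hs h2 (p := fun g => g = 0) ?_ hy rfl ?_ ?_ hc
  · exact isClosed_eq continuous_id continuous_const
  · rintro g k rfl rfl
    exact add_zero 0
  · rintro t g rfl
    exact smul_zero t

/-- E6 -/
theorem iso_of_prop (hs : IsStationary μ) (h2 : Integrable (fun f : MW => f 0 ^ 2) μ)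
    (h : ∀ c ∈ values μ, ∃ l : ℂ, ∀ k ∈ values μ, D c k = l * (⟪c, k⟫_ℝ : ℝ)) : Iso μ := by
  intro c hc c' hc' hcc
  by_cases hc0 : c = 0
  · rw [hc0, norm_zero] at hcc
    rw [hc0, norm_eq_zero.1 hcc.symm]
  have hr : 0 < ‖c‖ := norm_pos_iff.2 hc0
  by_cases hs0 : c + c' = 0
  · have hc'' : c' = -c := (neg_eq_of_add_eq_zero_right hs0).symm
    obtain ⟨x, hx⟩ := Pool.Agent.Helper12.Lr.zero_exists hs h2 c
    have hV := V_ne hs h2 hc hc0 x
    have hVp : 0 < ‖V hs h2 x‖ := norm_pos_iff.2 hV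
    have h1 := circle h hc (Submodule.smul_mem _ (‖c‖ / ‖V hs h2 x‖) (V_mem hs h2 x))
      (by rw [real_inner_smul_right, hx, mul_zero]) hr rfl
      (by
        rw [norm_smul, Real.norm_eq_abs, abs_of_nonneg (by positivity),
          div_mul_cancel₀ _ hVp.ne']) 0 Real.pi
    rw [Real.cos_zero, Real.sin_zero, Real.cos_pi, Real.sin_pi, zero_smul, add_zero, one_smul,
      add_zero, neg_one_smul] at h1
    rw [hc'', h1]
  by_cases hd0 : c' - c = 0
  · rw [sub_eq_zero.1 hd0]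
  have hap : 0 < ‖c + c'‖ := norm_pos_iff.2 hs0
  have hbp : 0 < ‖c' - c‖ := norm_pos_iff.2 hd0
  have horth : ⟪c + c', c' - c⟫_ℝ = 0 := by
    rw [inner_add_left, inner_sub_right, inner_sub_right, real_inner_self_eq_norm_sq,
      real_inner_self_eq_norm_sq, real_inner_comm c c', hcc]
    ring
  have hpyth : ‖c + c'‖ ^ 2 + ‖c' - c‖ ^ 2 = 4 * ‖c‖ ^ 2 := by
    rw [norm_add_sq_real, norm_sub_sq_real, real_inner_comm c c', ← hcc]
    ring
  obtain ⟨p, hp⟩ : ∃ p, p = ‖c + c'‖ / (2 * ‖c‖) := ⟨_, rfl⟩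
  obtain ⟨q, hq⟩ : ∃ q, q = ‖c' - c‖ / (2 * ‖c‖) := ⟨_, rfl⟩
  have hp0 : 0 ≤ p := by rw [hp]; positivity
  have hq0 : 0 ≤ q := by rw [hq]; positivity
  have hpq : p ^ 2 + q ^ 2 = 1 := by
    rw [hp, hq, div_pow, div_pow, ← add_div, hpyth, mul_pow]
    rw [div_eq_one_iff_eq (by positivity)]
    ring
  have hp1 : p ≤ 1 := by nlinarith [sq_nonneg q]
  have hcos : Real.cos (Real.arccos p) = p := Real.cos_arccos (by linarith) hp1
  have hsin : Real.sin (Real.arccos p) = q := by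
    rw [Real.sin_arccos, ← Real.sqrt_sq hq0]
    congr 1
    linarith
  have key := circle h
    (Submodule.smul_mem _ (‖c‖ / ‖c + c'‖) (Submodule.add_mem _ hc hc'))
    (Submodule.smul_mem _ (‖c‖ / ‖c' - c‖) (Submodule.sub_mem _ hc' hc))
    (by rw [real_inner_smul_left, real_inner_smul_right, horth, mul_zero, mul_zero]) hr
    (by rw [norm_smul, Real.norm_eq_abs, abs_of_nonneg (by positivity),
      div_mul_cancel₀ _ hap.ne'])
    (by rw [norm_smul, Real.norm_eq_abs, abs_of_nonneg (by positivity),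
      div_mul_cancel₀ _ hbp.ne']) (-Real.arccos p) (Real.arccos p)
  rw [Real.cos_neg, Real.sin_neg, hcos, hsin, smul_smul, smul_smul, smul_smul] at key
  have e1 : p * (‖c‖ / ‖c + c'‖) = 1 / 2 := by
    rw [hp]
    field_simp
  have e2 : q * (‖c‖ / ‖c' - c‖) = 1 / 2 := by
    rw [hq]
    field_simp
  rw [neg_mul, e1, e2] at key
  have e3 : ((1 / 2 : ℝ)) • (c + c') + (-(1 / 2 : ℝ)) • (c' - c) = c := by module
  have e4 : ((1 / 2 : ℝ)) • (c + c') + ((1 / 2 : ℝ)) • (c' - c) = c' := by module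
  rw [e3, e4] at key
  exact key

end

end Pool.Agent.Helper72.Er
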