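import Pool.Agent.Helper72.Er.E8

/-!
# Package E7: isotropy gives vanishing conditional means
-/

set_option autoImplicit false
set_option linter.unusedSectionVars false
open MeasureTheory Filter Topology ProbabilityTheory
open scoped ContDiff ENNReal InnerProductSpace

namespace Pool.Agent.Helper72.Er

open Pool.Agent.N661.BR (MW IsStationary meas_eval lin meas_lin)
open Pool.Agent.Helper37.BC
open Pool.Agent.Helper26.Ip
open Pool.Agent.Helper26.Lr
open Pool.Agent.Helper26.Er
open Pool.Agent.Helper33.Ip (comb_coe)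
open Complex (I)

noncomputable section

section general

variable {Ω : Type*} [mΩ : MeasurableSpace Ω] {μ : Measure Ω} [IsProbabilityMeasure μ]

theorem charFun_dens {g X : Ω → ℝ} (hgm : Measurable g) (hX : Measurable X) (τ : ℝ) :
    charFun ((μ.withDensity fun f => ENNReal.ofReal (g f)).map X) τ =
      ∫ f, ((max (g f) 0 : ℝ) : ℂ) * Complex.exp (I * ((τ * X f : ℝ) : ℂ)) ∂μ := by
  rw [charFun_apply_real, integral_map hX.aemeasurable (by fun_prop)]
  have h1 : (fun f => ENNReal.ofReal (g f)) = fun f => ((Real.toNNReal (g f) : NNReal) : ℝ≥0∞) :=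
    rfl
  rw [h1, integral_withDensity_eq_integral_smul hgm.real_toNNReal]
  refine integral_congr_ae (Eventually.of_forall fun f => ?_)
  show Real.toNNReal (g f) • Complex.exp (τ * X f * I) = _
  rw [NNReal.smul_def, Real.coe_toNNReal', Complex.real_smul]
  congr 2
  push_cast
  ring

theorem bdd_int {g X : Ω → ℝ} (hg : Integrable g μ) (hX : Measurable X) (τ : ℝ) :
    Integrable (fun f => (g f : ℂ) * Complex.exp (I * ((τ * X f : ℝ) : ℂ))) μ := by
  refine Integrable.mul_bdd (c := 1) hg.ofReal ?_ (Eventually.of_forall fun f => ?_)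
  · exact (Complex.measurable_exp.comp ((Complex.measurable_ofReal.comp
      (hX.const_mul τ)).const_mul I)).aestronglyMeasurable
  · rw [Pool.Agent.Helper41.Ip.norm_exp_one]

/-- a variable with vanishing weighted characteristic functional has conditional mean `0` -/
theorem condExp_of_char {g X : Ω → ℝ} (hg : Integrable g μ) (hgm : Measurable g)
    (hX : Measurable X)
    (h : ∀ τ : ℝ, ∫ f, (g f : ℂ) * Complex.exp (I * ((τ * X f : ℝ) : ℂ)) ∂μ = 0) :
    μ[g | MeasurableSpace.comap X inferInstance] =ᵐ[μ] fun _ => 0 := by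
  have hle : MeasurableSpace.comap X inferInstance ≤ mΩ := hX.comap_le
  have f1 : IsFiniteMeasure (μ.withDensity fun f => ENNReal.ofReal (g f)) :=
    isFiniteMeasure_withDensity_ofReal hg.2
  have f2 : IsFiniteMeasure (μ.withDensity fun f => ENNReal.ofReal (-g f)) :=
    isFiniteMeasure_withDensity_ofReal hg.neg.2
  have heq : (μ.withDensity fun f => ENNReal.ofReal (g f)).map X =
      (μ.withDensity fun f => ENNReal.ofReal (-g f)).map X := by
    refine Measure.ext_of_charFun ?_
    funext τ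
    have e1 := charFun_dens (μ := μ) hgm hX τ
    have e2 := charFun_dens (μ := μ) hgm.neg hX τ
    have e2' : charFun ((μ.withDensity fun f => ENNReal.ofReal (-g f)).map X) τ =
      ∫ f, ((max (-g f) 0 : ℝ) : ℂ) * Complex.exp (I * ((τ * X f : ℝ) : ℂ)) ∂μ := e2
    have i2 : Integrable (fun f => ((max (-g f) 0 : ℝ) : ℂ) *
        Complex.exp (I * ((τ * X f : ℝ) : ℂ))) μ := bdd_int hg.neg.pos_part hX τ
    rw [e1, e2', ← sub_eq_zero, ← integral_sub (bdd_int hg.pos_part hX τ) i2, ← h τ]
    refine integral_congr_ae (Eventually.of_forall fun f => ?_)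
    show ((max (g f) 0 : ℝ) : ℂ) * Complex.exp (I * ((τ * X f : ℝ) : ℂ)) -
      ((max (-g f) 0 : ℝ) : ℂ) * Complex.exp (I * ((τ * X f : ℝ) : ℂ)) =
      (g f : ℂ) * Complex.exp (I * ((τ * X f : ℝ) : ℂ))
    rw [← sub_mul, ← Complex.ofReal_sub, max_zero_sub_max_neg_zero_eq_self]
  refine (ae_eq_condExp_of_forall_setIntegral_eq hle hg
    (fun s _ _ => (integrable_const (0:ℝ)).integrableOn) (fun s hs _ => ?_)
    (stronglyMeasurable_const).aestronglyMeasurable).symm
  obtain ⟨B, hB, rfl⟩ := hs
  rw [integral_zero]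
  have h1 := congrArg (fun ν : Measure ℝ => ν B) heq
  simp only [Measure.map_apply hX hB] at h1
  rw [withDensity_apply _ (hX hB), withDensity_apply _ (hX hB)] at h1
  rw [integral_eq_lintegral_pos_part_sub_lintegral_neg_part hg.integrableOn, h1, sub_self]

end general

variable {μ : Measure MW} [IsProbabilityMeasure μ]

theorem D_zero_of_iso (h : Iso μ) {a c : Lp ℝ 2 μ} (ha : a ∈ values μ) (hc : c ∈ values μ)
    (hac : ⟪c, a⟫_ℝ = 0) : D c a = 0 := by
  have h1 : HasDerivAt (fun s : ℝ => ch (c + s • a)) (I * D c a) 0 := by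
    have := Pool.Agent.Helper41.Ip.ch_deriv c a 0
    rw [zero_smul, add_zero] at this
    exact this
  have h2 : HasDerivAt (fun s : ℝ => ch (c + s • (-a))) (I * D c (-a)) 0 := by
    have := Pool.Agent.Helper41.Ip.ch_deriv c (-a) 0
    rw [zero_smul, add_zero] at this
    exact this
  have h3 : (fun s : ℝ => ch (c + s • a)) = fun s : ℝ => ch (c + s • (-a)) := by
    funext s
    refine h _ (Submodule.add_mem _ hc (Submodule.smul_mem _ s ha)) _
      (Submodule.add_mem _ hc (Submodule.smul_mem _ s (Submodule.neg_mem _ ha))) ?_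
    have h4 : ‖c + s • a‖ ^ 2 = ‖c + s • (-a)‖ ^ 2 := by
      rw [norm_add_sq_real, norm_add_sq_real, real_inner_smul_right, real_inner_smul_right,
        inner_neg_right, hac, smul_neg, norm_neg]
      ring
    exact (sq_eq_sq₀ (norm_nonneg _) (norm_nonneg _)).1 h4
  rw [h3] at h1
  have h5 := mul_left_cancel₀ Complex.I_ne_zero (h1.unique h2)
  have h6 : D c (-a) = -D c a := by
    have := D_smul c a (-1)
    rw [neg_one_smul] at this
    rw [this]
    push_cast
    ring
  rw [h6] at h5
  exact self_eq_neg.1 h5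

/-- E7 -/
theorem condExp_of_iso (hs : IsStationary μ) (h2 : Integrable (fun f : MW => f 0 ^ 2) μ)
    (h : Iso μ) (k : ℕ) (w : Fin k → ℂ) (t : Fin k → ℝ) (h0 : ∫ f : MW, f 0 * lin w t f ∂μ = 0) :
    μ[fun f : MW => f 0 | sig (lin w t)] =ᵐ[μ] (fun _ => 0) := by
  have hb : (∑ j, t j • V hs h2 (w j) : Lp ℝ 2 μ) ∈ values μ :=
    Submodule.sum_mem _ fun j _ => Submodule.smul_mem _ _ (V_mem hs h2 _)
  have hab : ⟪(∑ j, t j • V hs h2 (w j) : Lp ℝ 2 μ), V hs h2 0⟫_ℝ = 0 := by
    rw [L2.inner_def]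
    refine Eq.trans (integral_congr_ae ?_) h0
    filter_upwards [V_coe hs h2 0, comb_coe hs h2 w t] with f h3 h4
    rw [h3, h4]
    show f 0 * lin w t f = f 0 * lin w t f
    rfl
  refine condExp_of_char ((eval_two hs h2 0).integrable (by norm_num)) (meas_eval 0)
    (meas_lin w t) fun τ => ?_
  have h1 := D_zero_of_iso h (V_mem hs h2 0) (Submodule.smul_mem _ τ hb)
    (by rw [real_inner_smul_left, hab, mul_zero])
  refine Eq.trans (integral_congr_ae ?_) h1
  filter_upwards [V_coe hs h2 0, comb_coe hs h2 w t,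
    Lp.coeFn_smul τ (∑ j, t j • V hs h2 (w j) : Lp ℝ 2 μ)] with f h3 h4 h5
  rw [h3, h5, Pi.smul_apply, h4, smul_eq_mul]

end

end Pool.Agent.Helper72.Er
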