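import Pool.Agent.Helper72.Er.E6
import Pool.Agent.Helper41.Lr.LR1
import Pool.Agent.Helper33.Ip.Gauss

/-!
# Package E8: isotropic stationary waves with one constant variance are Gaussian
-/

set_option autoImplicit false
set_option linter.unusedSectionVars false
open MeasureTheory Filter Topology ProbabilityTheory
open scoped ContDiff ENNReal InnerProductSpace

namespace Pool.Agent.Helper72.Er

open Pool.Agent.N661.BR (MW IsStationary IsGaussianLaw)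
open Pool.Agent.Helper37.BC
open Pool.Agent.Helper26.Ip
open Pool.Agent.Helper26.Lr
open Pool.Agent.Helper26.Er
open Complex (I)

noncomputable section

section general

variable {Ω : Type*} [MeasurableSpace Ω] {μ : Measure Ω} [IsProbabilityMeasure μ]

theorem deriv_mul_id {ψ : ℝ → ℂ} (h : ContinuousAt ψ 0) :
    HasDerivAt (fun u : ℝ => (u : ℂ) * ψ u) (ψ 0) 0 := by
  rw [hasDerivAt_iff_tendsto_slope_zero]
  have h1 : Tendsto ψ (𝓝[≠] 0) (𝓝 (ψ 0)) := h.tendsto.mono_left nhdsWithin_le_nhds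
  refine h1.congr' ?_
  filter_upwards [self_mem_nhdsWithin] with u hu
  have hu' : (u : ℂ) ≠ 0 := by exact_mod_cast hu
  rw [zero_add, Complex.ofReal_zero, zero_mul, sub_zero, Complex.real_smul, Complex.ofReal_inv,
    ← mul_assoc, inv_mul_cancel₀ hu', one_mul]

theorem D_add (c k v : Lp ℝ 2 μ) : D c (k + v) = D c k + D c v := by
  unfold D
  rw [← integral_add (Pool.Agent.Helper41.Ip.int_kexp k c) (Pool.Agent.Helper41.Ip.int_kexp v c)]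
  refine integral_congr_ae ?_
  filter_upwards [Lp.coeFn_add k v] with f hf
  rw [hf, Pi.add_apply]
  push_cast
  ring

theorem D_smul (c k : Lp ℝ 2 μ) (t : ℝ) : D c (t • k) = t * D c k := by
  unfold D
  rw [← integral_const_mul]
  refine integral_congr_ae ?_
  filter_upwards [Lp.coeFn_smul t k] with f hf
  rw [hf, Pi.smul_apply, smul_eq_mul]
  push_cast
  ring

theorem D_cont (g : Lp ℝ 2 μ) : Continuous fun c : Lp ℝ 2 μ => D c g :=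
  Pool.Agent.Helper41.Lr.g_cont (fun f => g f) (Pool.Agent.Helper41.Ip.int_one g)

/-- the identity between the variance and the derivative -/
theorem key_var {c k : Lp ℝ 2 μ} (hck : ⟪c, k⟫_ℝ = 0)
    (h : ∀ u : ℝ, ∃ l : ℂ, D (c + u • k) c = l * (⟪c + u • k, c⟫_ℝ : ℝ) ∧
      D (c + u • k) k = l * (⟪c + u • k, k⟫_ℝ : ℝ)) :
    I * (∫ f, ((k f ^ 2 : ℝ) : ℂ) * Complex.exp (I * ((c f : ℝ) : ℂ)) ∂μ) * (‖c‖ ^ 2 : ℝ) =
      D c c * (‖k‖ ^ 2 : ℝ) := by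
  have hkc : ⟪k, c⟫_ℝ = 0 := by rw [real_inner_comm, hck]
  have i1 : ∀ u : ℝ, ⟪c + u • k, c⟫_ℝ = ‖c‖ ^ 2 := by
    intro u
    rw [inner_add_left, real_inner_smul_left, hkc, mul_zero, add_zero, real_inner_self_eq_norm_sq]
  have i2 : ∀ u : ℝ, ⟪c + u • k, k⟫_ℝ = u * ‖k‖ ^ 2 := by
    intro u
    rw [inner_add_left, real_inner_smul_left, hck, zero_add, real_inner_self_eq_norm_sq]
  have hid : ∀ u : ℝ, D (c + u • k) k * (‖c‖ ^ 2 : ℝ) =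
      (u : ℂ) * (D (c + u • k) c * (‖k‖ ^ 2 : ℝ)) := by
    intro u
    obtain ⟨l, h1, h2⟩ := h u
    rw [h1, h2, i1, i2]
    push_cast
    ring
  have hd1 : HasDerivAt (fun u : ℝ => D (c + u • k) k * (‖c‖ ^ 2 : ℝ))
      (I * (∫ f, ((k f * k f : ℝ) : ℂ) * Complex.exp (I * ((c f : ℝ) : ℂ)) ∂μ) *
        (‖c‖ ^ 2 : ℝ)) 0 := (Pool.Agent.Helper41.Lr.g_deriv k c k).mul_const _
  have hcont : ContinuousAt (fun u : ℝ => D (c + u • k) c * (‖k‖ ^ 2 : ℝ)) 0 := by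
    have h0 : Continuous fun u : ℝ => c + u • k :=
      continuous_const.add (continuous_id.smul continuous_const)
    have h1 : Continuous fun u : ℝ => D (c + u • k) c := (D_cont c).comp h0
    exact (h1.mul continuous_const).continuousAt
  have hd2 := deriv_mul_id hcont
  have hfun : (fun u : ℝ => D (c + u • k) k * ((‖c‖ ^ 2 : ℝ) : ℂ)) =
      fun u : ℝ => (u : ℂ) * (D (c + u • k) c * ((‖k‖ ^ 2 : ℝ) : ℂ)) := funext hid
  rw [hfun] at hd1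
  have h3 := hd1.unique hd2
  rw [zero_smul, add_zero] at h3
  have h6 : ∫ f, ((k f ^ 2 : ℝ) : ℂ) * Complex.exp (I * ((c f : ℝ) : ℂ)) ∂μ =
      ∫ f, ((k f * k f : ℝ) : ℂ) * Complex.exp (I * ((c f : ℝ) : ℂ)) ∂μ := by
    refine integral_congr_ae (Eventually.of_forall fun f => ?_)
    show ((k f ^ 2 : ℝ) : ℂ) * Complex.exp (I * ((c f : ℝ) : ℂ)) =
      ((k f * k f : ℝ) : ℂ) * Complex.exp (I * ((c f : ℝ) : ℂ))
    rw [sq]
  rw [h6, h3]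

theorem ex_eq_D (c k : Lp ℝ 2 μ) : ex c k = D c k - I * (⟪c, k⟫_ℝ : ℝ) * ch c := by
  unfold ex D
  have h1 : ∫ f, k f * c f ∂μ = ⟪c, k⟫_ℝ := by
    rw [L2.inner_def]
    rfl
  rw [h1]

end general

variable {μ : Measure MW} [IsProbabilityMeasure μ]

theorem key_var' (h : ∀ c ∈ values μ, ∃ l : ℂ, ∀ k ∈ values μ, D c k = l * (⟪c, k⟫_ℝ : ℝ))
    {c k : Lp ℝ 2 μ} (hc : c ∈ values μ) (hk : k ∈ values μ) (hck : ⟪c, k⟫_ℝ = 0) :
    I * (∫ f, ((k f ^ 2 : ℝ) : ℂ) * Complex.exp (I * ((c f : ℝ) : ℂ)) ∂μ) * (‖c‖ ^ 2 : ℝ) =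
      D c c * (‖k‖ ^ 2 : ℝ) :=
  key_var hck fun u => by
    obtain ⟨l, hl⟩ := h (c + u • k) (Submodule.add_mem _ hc (Submodule.smul_mem _ u hk))
    exact ⟨l, hl c hc, hl k hk⟩

/-- E8a -/
theorem gauss_of_var (hs : IsStationary μ) (h2 : Integrable (fun f : MW => f 0 ^ 2) μ)
    (h : ∀ c ∈ values μ, ∃ l : ℂ, ∀ k ∈ values μ, D c k = l * (⟪c, k⟫_ℝ : ℝ)) (hi : Iso μ)
    (hv : ∀ c ∈ values μ, ∃ k ∈ values μ, k ≠ 0 ∧ ⟪c, k⟫_ℝ = 0 ∧
      ∫ f, ((k f ^ 2 : ℝ) : ℂ) * Complex.exp (I * ((c f : ℝ) : ℂ)) ∂μ = (‖k‖ ^ 2 : ℝ) * ch c) :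
    IsGaussianLaw μ := by
  refine Pool.Agent.Helper33.Ip.gauss_of_ex hs h2 fun c hc k hk => ?_
  by_cases hc0 : c = 0
  · rw [hc0]
    exact Pool.Agent.Helper41.Ip.ex_zero_left k (Pool.Agent.Helper33.Ip.mean_values hs h2 hk)
  have hr : ‖c‖ ≠ 0 := norm_ne_zero_iff.2 hc0
  have hr2 : ((‖c‖ ^ 2 : ℝ) : ℂ) ≠ 0 := by exact_mod_cast pow_ne_zero 2 hr
  obtain ⟨v, hvm, hv0, hcv, hvar⟩ := hv c hc
  have hv2 : ((‖v‖ ^ 2 : ℝ) : ℂ) ≠ 0 := by exact_mod_cast pow_ne_zero 2 (norm_ne_zero_iff.2 hv0)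
  have h1 := key_var' h hc hvm hcv
  rw [hvar] at h1
  have h3 : D c c = I * ch c * (‖c‖ ^ 2 : ℝ) := by
    refine mul_right_cancel₀ hv2 ?_
    rw [← h1]
    ring
  obtain ⟨l, hl⟩ := h c hc
  have h4 := hl c hc
  rw [h3, real_inner_self_eq_norm_sq] at h4
  have h5 : I * ch c = l := mul_right_cancel₀ hr2 h4
  rw [ex_eq_D, hl k hk, ← h5]
  ring

theorem D_self (hi : Iso μ) {a b : Lp ℝ 2 μ} (ha : a ∈ values μ) (hb : b ∈ values μ)
    (hab : ‖a‖ = ‖b‖) : D a a = D b b := by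
  have h1 : ∀ c : Lp ℝ 2 μ, HasDerivAt (fun s : ℝ => ch (c + s • c)) (I * D c c) 0 := by
    intro c
    have := Pool.Agent.Helper41.Ip.ch_deriv c c 0
    rw [zero_smul, add_zero] at this
    exact this
  have h2 : (fun s : ℝ => ch (a + s • a)) = fun s : ℝ => ch (b + s • b) := by
    funext s
    refine hi _ (Submodule.add_mem _ ha (Submodule.smul_mem _ s ha)) _
      (Submodule.add_mem _ hb (Submodule.smul_mem _ s hb)) ?_
    have e : ∀ c : Lp ℝ 2 μ, c + s • c = (1 + s) • c := fun c => by rw [add_smul, one_smul]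
    rw [e, e, norm_smul, norm_smul, hab]
  have h3 := h1 a
  rw [h2] at h3
  exact mul_left_cancel₀ Complex.I_ne_zero (h3.unique (h1 b))

/-- E8b: one variance -/
theorem var_of_one (hs : IsStationary μ) (h2 : Integrable (fun f : MW => f 0 ^ 2) μ)
    (h : ∀ c ∈ values μ, ∃ l : ℂ, ∀ k ∈ values μ, D c k = l * (⟪c, k⟫_ℝ : ℝ)) (hi : Iso μ)
    {x k : Lp ℝ 2 μ} (hx : x ∈ values μ) (hx0 : x ≠ 0) (hk : k ∈ values μ) (hk0 : k ≠ 0)
    (hxk : ⟪x, k⟫_ℝ = 0)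
    (h1 : ∀ s : ℝ, ∫ f, ((k f ^ 2 : ℝ) : ℂ) *
      Complex.exp (I * (((s • x : Lp ℝ 2 μ) f : ℝ) : ℂ)) ∂μ = (‖k‖ ^ 2 : ℝ) * ch (s • x)) :
    ∀ c ∈ values μ, ∃ k ∈ values μ, k ≠ 0 ∧ ⟪c, k⟫_ℝ = 0 ∧
      ∫ f, ((k f ^ 2 : ℝ) : ℂ) * Complex.exp (I * ((c f : ℝ) : ℂ)) ∂μ =
        (‖k‖ ^ 2 : ℝ) * ch c := by
  intro c hc
  by_cases hc0 : c = 0
  · refine ⟨k, hk, hk0, by rw [hc0, inner_zero_left], ?_⟩
    have h3 := h1 0
    rw [zero_smul] at h3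
    rw [hc0]
    exact h3
  obtain ⟨y, hy⟩ := Pool.Agent.Helper12.Lr.zero_exists hs h2 c
  have hV := V_ne hs h2 hc hc0 y
  refine ⟨V hs h2 y, V_mem hs h2 y, hV, hy, ?_⟩
  have hr : ‖c‖ ≠ 0 := norm_ne_zero_iff.2 hc0
  have hr2 : ((‖c‖ ^ 2 : ℝ) : ℂ) ≠ 0 := by exact_mod_cast pow_ne_zero 2 hr
  have hk2 : ((‖k‖ ^ 2 : ℝ) : ℂ) ≠ 0 := by exact_mod_cast pow_ne_zero 2 (norm_ne_zero_iff.2 hk0)
  have hxp : 0 < ‖x‖ := norm_pos_iff.2 hx0
  obtain ⟨s, hsdef⟩ : ∃ s, s = ‖c‖ / ‖x‖ := ⟨_, rfl⟩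
  have hs0 : 0 ≤ s := by rw [hsdef]; positivity
  have hsn : ‖s • x‖ = ‖c‖ := by
    rw [norm_smul, Real.norm_eq_abs, abs_of_nonneg hs0, hsdef, div_mul_cancel₀ _ hxp.ne']
  have hsm : s • x ∈ values μ := Submodule.smul_mem _ s hx
  have h3 := key_var' h hsm hk (by rw [real_inner_smul_left, hxk, mul_zero])
  rw [h1 s, hsn] at h3
  have h4 : D (s • x) (s • x) = I * ch (s • x) * (‖c‖ ^ 2 : ℝ) := by
    refine mul_right_cancel₀ hk2 ?_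
    rw [← h3]
    ring
  have h5 := key_var' h hc (V_mem hs h2 y) hy
  rw [D_self hi hc hsm hsn.symm, h4, ← hi c hc _ hsm hsn.symm] at h5
  refine mul_left_cancel₀ Complex.I_ne_zero (mul_right_cancel₀ hr2 ?_)
  rw [h5]
  ring

end

end Pool.Agent.Helper72.Er
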